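import Pool.Agent.W642.CT.Amp
import Pool.Agent.W642.CT.LawC
import Pool.Agent.W642.CT.Thr
import Pool.Agent.W642.CT.Tr2

set_option autoImplicit false

/-!
From few exceptions to none. The exceptions to bounds for the total stopping time `l` of the Collatz
function propagate: one member `n` with `l(n) > t` produces a proportion `c / n` of members `m` up to
every `x ≥ 4 n` with `l(m) > t - log₂ (2n)`. Hence the inequality `l(n) ≤ n` of the question holds for all
large members of an invariant set as soon as it has few exceptions in a suitable sense.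
-/

namespace Pool.Agent.Results.MP_e43fce_nt.FewExceptions

open Filter Topology

/-- the Collatz function -/
def C (n : ℕ) : ℕ := if n % 2 = 0 then n / 2 else 3 * n + 1

/-- `l(n) ≤ t`: one of the iterates `C^(k)(n)` with `k ≤ t` is `1` -/
def StopsBy (t : ℝ) (n : ℕ) : Prop := ∃ k : ℕ, (k : ℝ) ≤ t ∧ C^[k] n = 1

/-- `R` is invariant: for all `n ≥ 1`, `n ∈ R` if and only if `C n ∈ R` -/
def Invariant (R : Set ℕ) : Prop := ∀ n : ℕ, 1 ≤ n → (n ∈ R ↔ C n ∈ R)

/-- the number of the `m ∈ R`, `1 ≤ m ≤ x`, with `l(m) > f(m)` (`l(m) = ∞` allowed) -/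
noncomputable def exceptions (R : Set ℕ) (f : ℕ → ℝ) (x : ℝ) : ℕ :=
  {m : ℕ | 1 ≤ m ∧ (m : ℝ) ≤ x ∧ m ∈ R ∧ ¬ StopsBy (f m) m}.ncard

/-- `l(n) ≤ n ^ A` for all large `n ∈ R` -/
def Bounded (R : Set ℕ) (A : ℝ) : Prop := ∀ᶠ n : ℕ in atTop, n ∈ R → StopsBy ((n : ℝ) ^ A) n

/-- for all large `x` at most `x ^ (1 - δ)` of the `m ∈ R`, `m ≤ x`, have `l(m) > m ^ B` -/
def PowerSaving (R : Set ℕ) (B δ : ℝ) : Prop :=
  ∀ᶠ x : ℝ in atTop, (exceptions R (fun m => (m : ℝ) ^ B) x : ℝ) ≤ x ^ (1 - δ)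

/-- for all large `x` at most `x / (log x) ^ D` of the `m ∈ R`, `m ≤ x`, have `l(m) > K log m` -/
def LogSaving (R : Set ℕ) (K D : ℝ) : Prop :=
  ∀ᶠ x : ℝ in atTop, (exceptions R (fun m => K * Real.log m) x : ℝ) ≤ x / (Real.log x) ^ D

/-- There is an absolute constant `c > 0` such that for every invariant set `R` (for instance the set of
all positive integers, or of those which reach `1`) the following holds.

(1) If `n ∈ R`, `l(n) > t ≥ log₂ n + 3` and `x ≥ 4 n`, then at least `c x / n` of the `m ∈ R` with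
`x/2 < m ≤ x` have `l(m) > t - (log₂ n + 1)`.

(2) If for some `θ < 1` and every large `n` there is ONE `x ≥ 4 n` such that fewer than `c x / n` of the
`m ∈ R`, `m ≤ x`, have `l(m) > θ n`, then `l(n) ≤ n` for all large `n ∈ R`.

(3) If for some `K > 0` and `κ < c / K` at most `κ x / log x` of the `m ∈ R`, `m ≤ x`, have
`l(m) > K log m`, for all large `x`, then `l(n) ≤ n` for all large `n ∈ R`.

(4) If at most `x ^ (1 - δ)` of the `m ∈ R` up to `x` have `l(m) > m ^ B`, where `0 < B`, `0 < δ ≤ 1`,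
then `l(n) ≤ n ^ A` for all large `n ∈ R`, for every `A > B / δ` (`A = 1` if `B < δ`).

(5) If at most `x / (log x) ^ D` of the `m ∈ R` up to `x` have `l(m) > K log m`, where `K, D > 0`, then
`l(n) ≤ n ^ A` for all large `n ∈ R`, for every `A > 1 / D`.

(6) Equivalent are: `l(n) ≤ n ^ A` for some `A` and all large `n ∈ R`; the inequality `l(n) ≤ n` has at
most `x ^ (1 - δ)` exceptions in `R` up to `x`, for some `δ > 0`; for every `B > 0` the inequality
`l(n) ≤ n ^ B` has at most `x ^ (1 - δ)` exceptions in `R` up to `x`, for some `δ > 0`.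

(7) Equivalent are: `l(n) ≤ n ^ ε` for every `ε > 0` and all large `n ∈ R`; for some `K > 0` and every `D`
at most `x / (log x) ^ D` of the `m ∈ R` up to `x` have `l(m) > K log m`; the same for every
`K > 3 / log (4/3)`. -/
theorem result : ∃ c : ℝ, 0 < c ∧ ∀ R : Set ℕ, Invariant R →
    (∀ n : ℕ, 1 ≤ n → n ∈ R → ∀ t : ℝ, Real.logb 2 n + 3 ≤ t → ¬ StopsBy t n → ∀ x : ℝ, 4 * n ≤ x →
      c * x / n ≤ ({m : ℕ | x / 2 < (m : ℝ) ∧ (m : ℝ) ≤ x ∧ m ∈ R ∧
        ¬ StopsBy (t - (Real.logb 2 n + 1)) m}.ncard : ℝ)) ∧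
    (∀ θ : ℝ, θ < 1 → (∀ᶠ n : ℕ in atTop, ∃ x : ℝ, 4 * n ≤ x ∧
      (exceptions R (fun _ => θ * n) x : ℝ) < c * x / n) →
      ∀ᶠ n : ℕ in atTop, n ∈ R → StopsBy n n) ∧
    (∀ K κ : ℝ, 0 < K → κ < c / K →
      (∀ᶠ x : ℝ in atTop, (exceptions R (fun m => K * Real.log m) x : ℝ) ≤ κ * x / Real.log x) →
      ∀ᶠ n : ℕ in atTop, n ∈ R → StopsBy n n) ∧
    (∀ A B δ : ℝ, 0 < B → 0 < δ → δ ≤ 1 → B / δ < A → PowerSaving R B δ → Bounded R A) ∧
    (∀ A K D : ℝ, 0 < K → 0 < D → 1 / D < A → LogSaving R K D → Bounded R A) ∧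
    [∃ A : ℝ, Bounded R A,
      ∃ δ : ℝ, 0 < δ ∧ PowerSaving R 1 δ,
      ∀ B : ℝ, 0 < B → ∃ δ : ℝ, 0 < δ ∧ PowerSaving R B δ].TFAE ∧
    [∀ ε : ℝ, 0 < ε → Bounded R ε,
      ∃ K : ℝ, 0 < K ∧ ∀ D : ℝ, LogSaving R K D,
      ∀ K : ℝ, 3 / Real.log (4 / 3) < K → ∀ D : ℝ, LogSaving R K D].TFAE := by
  obtain ⟨c, hc, hA⟩ := Pool.Agent.W642.CT.amp
  refine ⟨c, hc, fun R hR => ?_⟩
  have hR' : Pool.Agent.W642.CT.Inv R := hR
  have hl0 : 0 < Real.log (4 / 3) := Real.log_pos (by norm_num)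
  have p3 : ∀ A B δ : ℝ, 0 < B → 0 < δ → δ ≤ 1 → B / δ < A → PowerSaving R B δ → Bounded R A := by
    intro A B δ hB hδ hδ1 hAB h
    rw [div_lt_iff₀ hδ] at hAB
    exact Pool.Agent.W642.CT.power_of_saving hc hA hR' hB hδ hδ1 (by linarith) h
  have p4 : ∀ A K D : ℝ, 0 < K → 0 < D → 1 / D < A → LogSaving R K D → Bounded R A := by
    intro A K D hK hD hAD h
    rw [div_lt_iff₀ hD] at hAD
    exact Pool.Agent.W642.CT.power_of_log_saving hc hA hR' hK hD (by linarith) h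
  have hM : 3 / Real.log (4 / 3) < 3 / Real.log (4 / 3) + 1 := by linarith
  refine ⟨hA R hR', fun θ hθ h => Pool.Agent.W642.CT.single_scale hA hR' hθ h,
    fun K κ hK hκ h => Pool.Agent.W642.CT.log_threshold hc hA hR' hK hκ h, p3, p4, ?_, ?_⟩
  · tfae_have 1 → 3 := by
      rintro ⟨A, h⟩ B hB
      exact Pool.Agent.W642.CT.saving_of_power (Pool.Agent.W642.CT.law_C hM) hR' hB h
    tfae_have 3 → 2 := fun h => h 1 one_pos
    tfae_have 2 → 1 := by
      rintro ⟨δ, hδ, h⟩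
      rcases le_or_gt δ 1 with h1 | h1
      · exact ⟨1 / δ + 1, p3 _ 1 δ one_pos hδ h1 (by linarith) h⟩
      · refine ⟨2, p3 2 1 1 one_pos one_pos le_rfl (by norm_num) ?_⟩
        filter_upwards [h, eventually_ge_atTop 1] with x hx hx1
        exact hx.trans (Real.rpow_le_rpow_of_exponent_le hx1 (by linarith))
    tfae_finish
  · tfae_have 1 → 3 := by
      intro h K hK D
      obtain ⟨M, hM1, hM2⟩ := exists_between hK
      exact Pool.Agent.W642.CT.log_saving_of_sub (Pool.Agent.W642.CT.law_C hM1) hR' hM2 h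
    tfae_have 3 → 2 := by
      intro h
      have h0 : 0 < 3 / Real.log (4 / 3) := by positivity
      exact ⟨3 / Real.log (4 / 3) + 1, by linarith, h _ hM⟩
    tfae_have 2 → 1 := by
      rintro ⟨K, hK, h⟩ ε hε
      refine p4 ε K (1 / ε + 1) hK (by positivity) ?_ (h _)
      rw [div_lt_iff₀ (by positivity)]
      have : ε * (1 / ε + 1) = 1 + ε := by field_simp
      linarith
    tfae_finish

end Pool.Agent.Results.MP_e43fce_nt.FewExceptions
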